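import Mathlib
import Pool.Agent.H16R3.RoundTable

/-!
Ivrii's conjecture, in every dimension and for all periods, for tables bounded by pieces of spheres
and hyperplanes; more generally, in an arbitrary table, for the periodic billiard orbits all of
whose bounces are at boundary points near which the boundary lies on a sphere or a hyperplane.
-/

set_option autoImplicit false

namespace Pool.Agent.Results.MP_249f74_an.SphericalBounces

open H450Sp H16R3Round

/-- The point `x` is a spherical or flat boundary point of the table `f < 0`: the function `f` is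
`C¹` near `x`, and near `x` the zero set of `f` lies on a sphere or on a hyperplane. -/
def RoundAt {d : ℕ} (f : EuclideanSpace ℝ (Fin d) → ℝ) (x : EuclideanSpace ℝ (Fin d)) : Prop :=
  ContDiffAt ℝ 1 f x ∧
    ((∃ (c : EuclideanSpace ℝ (Fin d)) (R : ℝ), 0 < R ∧ ∀ᶠ y in nhds x, f y = 0 → ‖y - c‖ = R) ∨
      (∃ (ν : EuclideanSpace ℝ (Fin d)) (a : ℝ), ν ≠ 0 ∧ ∀ᶠ y in nhds x, f y = 0 → inner ℝ ν y = a))

/-- The phase points `(x, v)` of the table `f < 0` in `ℝ^d` whose billiard orbit returns to itself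
after some `n ≥ 1` bounces. -/
def Periodic {d : ℕ} (f : EuclideanSpace ℝ (Fin d) → ℝ) :
    Set (EuclideanSpace ℝ (Fin d) × EuclideanSpace ℝ (Fin d)) :=
  {q | f q.1 = 0 ∧ ‖q.2‖ = 1 ∧ inner ℝ q.2 (gradient f q.1) < 0 ∧
        ∃ n : ℕ, 1 ≤ n ∧ ∃ p u : ℕ → EuclideanSpace ℝ (Fin d),
          p 0 = q.1 ∧ u 0 = q.2 ∧ p n = q.1 ∧ u n = q.2 ∧
          ∀ k < n, f (p k) = 0 ∧ ‖u k‖ = 1 ∧ inner ℝ (u k) (gradient f (p k)) < 0 ∧
            (∃ t : ℝ, 0 < t ∧ p (k + 1) = p k + t • u k ∧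
              ∀ s ∈ Set.Ioo (0 : ℝ) t, f (p k + s • u k) < 0) ∧
            u (k + 1) = u k - (2 * inner ℝ (u k) (gradient f (p (k + 1))) /
                ‖gradient f (p (k + 1))‖ ^ 2) • gradient f (p (k + 1))}

/-- The phase points `(x, v)` of the table `f < 0` in `ℝ^d` whose billiard orbit returns to itself
after some `n ≥ 1` bounces, all of them at spherical or flat boundary points. -/
def RoundPeriodic {d : ℕ} (f : EuclideanSpace ℝ (Fin d) → ℝ) :
    Set (EuclideanSpace ℝ (Fin d) × EuclideanSpace ℝ (Fin d)) :=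
  {q | f q.1 = 0 ∧ ‖q.2‖ = 1 ∧ inner ℝ q.2 (gradient f q.1) < 0 ∧
        ∃ n : ℕ, 1 ≤ n ∧ ∃ p u : ℕ → EuclideanSpace ℝ (Fin d),
          p 0 = q.1 ∧ u 0 = q.2 ∧ p n = q.1 ∧ u n = q.2 ∧
          ∀ k < n, f (p k) = 0 ∧ ‖u k‖ = 1 ∧ inner ℝ (u k) (gradient f (p k)) < 0 ∧
            RoundAt f (p k) ∧
            (∃ t : ℝ, 0 < t ∧ p (k + 1) = p k + t • u k ∧
              ∀ s ∈ Set.Ioo (0 : ℝ) t, f (p k + s • u k) < 0) ∧
            u (k + 1) = u k - (2 * inner ℝ (u k) (gradient f (p (k + 1))) /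
                ‖gradient f (p (k + 1))‖ ^ 2) • gradient f (p (k + 1))}

theorem fits_of_round {m : ℕ} (f : EE m → ℝ) (x : EE m) (h : RoundAt f x) :
    ∃ M : Mir (Fin (m + 2)), ∃ B ∈ nhds x, Fits f M B := by
  rcases h.2 with ⟨c, R, hR, h⟩ | ⟨ν, a, hν, h⟩
  · refine ⟨Mir.sph c.ofLp R, {y | f y = 0 → ‖y - c‖ = R}, h, hR, fun y hy hfy => ?_⟩
    have h1 : ‖y - c‖ = R := hy hfy
    have h2 : inner ℝ (y - c) (y - c) = df y.ofLp c.ofLp ⬝ᵥ df y.ofLp c.ofLp := by
      rw [inner_dot]; rfl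
    rw [← h2, real_inner_self_eq_norm_sq, h1]
  · refine ⟨Mir.pl ν.ofLp a, {y | f y = 0 → inner ℝ ν y = a}, h, ?_, fun y hy hfy => ?_⟩
    · intro h0
      apply hν
      have : ν = WithLp.toLp 2 ν.ofLp := rfl
      rw [this, h0]; rfl
    · have h1 : inner ℝ ν y = a := hy hfy
      rw [← inner_dot, real_inner_comm]
      exact h1

theorem round_null (d : ℕ) (hd : 2 ≤ d) (f : EuclideanSpace ℝ (Fin d) → ℝ) :
    MeasureTheory.Measure.hausdorffMeasure ((2 * d - 2 : ℕ) : ℝ) (RoundPeriodic f) = 0 := by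
  obtain ⟨m, rfl⟩ : ∃ m, d = m + 2 := ⟨d - 2, by omega⟩
  have h2 : (2 * (m + 2) - 2 : ℕ) = (m + 1) + (m + 1) := by omega
  rw [h2]
  apply null_orbits f
  rintro ⟨q, v⟩ ⟨hfq, hv, hqv, n, hn, p, u, hp0, hu0, hpn, hun, h⟩
  simp only at hfq hv hqv hp0 hu0 hpn hun
  refine ⟨hv, n, hn, p, u, hp0, hu0, hpn, hun, ?_, fun i hi => ?_⟩
  · have data : ∀ i < n, f (p i) = 0 ∧ inner ℝ (u i) (gradient f (p i)) < 0 ∧
        ContDiffAt ℝ 1 f (p i) ∧ ∃ M : Mir (Fin (m + 2)), ∃ B ∈ nhds (p i), Fits f M B := by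
      intro i hi
      obtain ⟨h1, _, h3, h4, _⟩ := h i hi
      exact ⟨h1, h3, h4.1, fits_of_round f (p i) h4⟩
    intro i hi
    rcases Nat.lt_or_eq_of_le hi with h1 | h1
    · exact data i h1
    · have h5 := data 0 (by omega)
      rw [hp0, hu0] at h5
      rw [h1, hpn, hun]
      exact h5
  · obtain ⟨_, _, _, _, ⟨t, ht, hpt, _⟩, hu1⟩ := h i hi
    exact ⟨⟨t, ht, hpt⟩, hu1⟩

/-- **Ivrii's conjecture for spherical and flat boundaries.** Let `d ≥ 2` and let `{f < 0}` be any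
table in `ℝ^d`. The set of phase points whose billiard orbit returns to itself after some `n ≥ 1`
bounces, all of them at spherical or flat boundary points, has `(2d-2)`-dimensional Hausdorff
measure zero. In particular, if every boundary point at which the gradient of `f` does not vanish
is spherical or flat (the table is bounded by pieces of spheres and hyperplanes), then the set of
all periodic phase points has measure zero. -/
theorem result (d : ℕ) (hd : 2 ≤ d) (f : EuclideanSpace ℝ (Fin d) → ℝ) :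
    MeasureTheory.Measure.hausdorffMeasure ((2 * d - 2 : ℕ) : ℝ) (RoundPeriodic f) = 0 ∧
    ((∀ x, f x = 0 → gradient f x ≠ 0 → RoundAt f x) →
      MeasureTheory.Measure.hausdorffMeasure ((2 * d - 2 : ℕ) : ℝ) (Periodic f) = 0) := by
  refine ⟨round_null d hd f, fun hall => ?_⟩
  refine MeasureTheory.measure_mono_null ?_ (round_null d hd f)
  rintro q ⟨h1, h2, h3, n, hn, p, u, hp0, hu0, hpn, hun, h⟩
  refine ⟨h1, h2, h3, n, hn, p, u, hp0, hu0, hpn, hun, fun k hk => ?_⟩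
  obtain ⟨a1, a2, a3, a4, a5⟩ := h k hk
  refine ⟨a1, a2, a3, hall (p k) a1 ?_, a4, a5⟩
  intro h0
  rw [h0, inner_zero_right] at a3
  exact lt_irrefl _ a3

end Pool.Agent.Results.MP_249f74_an.SphericalBounces
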